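import Mathlib

/-!
# The leftmost never refuted branch of a finitely branching tree
-/

set_option autoImplicit false

namespace Pool.Agent.Helper60.MA

namespace LB

variable {Q : Type} [Preorder Q] {B : Type}

/-- below `t` the word `z` never gets refuted completely -/
def Good (R : Q → List B → Prop) (t : Q) (z : List B) : Prop :=
  ∀ t' ≤ t, ∀ m, z.length ≤ m → ∃ z' : List B, z'.length = m ∧ z <+: z' ∧ R t' z'

theorem Good.mono {R : Q → List B → Prop} {t t' : Q} {z : List B} (h : Good R t z) (ht : t' ≤ t) :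
    Good R t' z := fun t'' ht'' m hm => h t'' (ht''.trans ht) m hm

theorem good_nil {R : Q → List B → Prop} (hR : ∀ t m, ∃ z, z.length = m ∧ R t z) (t : Q) :
    Good R t [] := by
  intro t' _ m _
  obtain ⟨z, hz, h⟩ := hR t' m
  exact ⟨z, hz, List.nil_prefix, h⟩

theorem Good.self {R : Q → List B → Prop} {t : Q} {z : List B} (h : Good R t z) : R t z := by
  obtain ⟨z', h1, h2, h3⟩ := h t le_rfl z.length le_rfl
  rwa [h2.eq_of_length h1.symm]

theorem Good.of_isPrefix {R : Q → List B → Prop} (hp : ∀ t z z', z <+: z' → R t z' → R t z) {t : Q}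
    {z w : List B} (h : Good R t w) (hzw : z <+: w) : Good R t z := by
  intro t' ht' m hm
  rcases le_total w.length m with h1 | h1
  · obtain ⟨z', h2, h3, h4⟩ := h t' ht' m h1
    exact ⟨z', h2, hzw.trans h3, h4⟩
  · have h2 := (h.mono ht').self
    refine ⟨w.take m, by rw [List.length_take, min_eq_left h1], ?_, hp _ _ _ (List.take_prefix _ _) h2⟩
    exact List.prefix_take_iff.2 ⟨hzw, hm⟩

theorem Good.step [Finite B] {R : Q → List B → Prop} (hm : ∀ t t' z, t' ≤ t → R t' z → R t z)
    (hp : ∀ t z z', z <+: z' → R t z' → R t z) {t : Q} {z : List B} (h : Good R t z) :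
    ∃ t' ≤ t, ∃ b, Good R t' (z ++ [b]) := by
  classical
  by_contra hcon
  push Not at hcon
  have key : ∀ s : Finset B, ∃ t' ≤ t, ∃ M, z.length < M ∧
      ∀ b ∈ s, ∀ z' : List B, M ≤ z'.length → (z ++ [b]) <+: z' → ¬ R t' z' := by
    intro s
    induction s using Finset.induction_on with
    | empty => exact ⟨t, le_rfl, z.length + 1, Nat.lt_succ_self _, fun b hb => absurd hb (by simp)⟩
    | insert b s hb ih =>
      obtain ⟨t1, ht1, M, hM, h1⟩ := ih
      have h2 := hcon t1 ht1 b
      unfold Good at h2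
      push Not at h2
      obtain ⟨t2, ht2, m, hm', h3⟩ := h2
      refine ⟨t2, ht2.trans ht1, max M m, lt_of_lt_of_le hM (le_max_left _ _), ?_⟩
      intro c hc z' hz' hpre hR'
      rcases Finset.mem_insert.1 hc with rfl | hc
      · have h4 : m ≤ z'.length := (le_max_right _ _).trans hz'
        refine h3 (z'.take m) (by rw [List.length_take, min_eq_left h4]) ?_
          (hp _ _ _ (List.take_prefix _ _) hR')
        exact List.prefix_take_iff.2 ⟨hpre, hm'⟩
      · exact h1 c hc z' ((le_max_left _ _).trans hz') hpre (hm _ _ _ ht2 hR')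
  have : Fintype B := Fintype.ofFinite B
  obtain ⟨t', ht', M, hM, h1⟩ := key Finset.univ
  obtain ⟨z', h2, h3, h4⟩ := h t' ht' M hM.le
  obtain ⟨w, rfl⟩ := h3
  cases w with
  | nil => simp at h2; omega
  | cons b w =>
    exact h1 b (Finset.mem_univ _) (z ++ b :: w) h2.ge ⟨w, by simp⟩ h4

end LB

open LB in
/-- block LB: the leftmost branch -/
theorem leftmost {Q : Type} [Preorder Q] {B : Type} [Finite B] (R : Q → List B → Prop)
    (hm : ∀ t t' z, t' ≤ t → R t' z → R t z) (hp : ∀ t z z', z <+: z' → R t z' → R t z)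
    (hR : ∀ t m, ∃ z, z.length = m ∧ R t z) :
    ∃ D : Q → List B → Prop, (∀ t t' z, t' ≤ t → D t z → D t' z) ∧
      (∀ t m, ∃ t' ≤ t, ∃ z, z.length = m ∧ D t' z) ∧
      (∀ t z z', D t z → D t z' → z.length ≤ z'.length → z <+: z') ∧
      ∀ t z, D t z → R t z := by
  classical
  obtain ⟨n, ⟨e⟩⟩ := Finite.exists_equiv_fin B
  let D : Q → List B → Prop := fun t z => Good R t z ∧
    ∀ y b, (y ++ [b]) <+: z → ∀ b', e b' < e b → ∀ t' ≤ t, ¬ Good R t' (y ++ [b'])
  have hD1 : ∀ t t' z, t' ≤ t → D t z → D t' z := by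
    intro t t' z ht h
    exact ⟨h.1.mono ht, fun y b hy b' hb t'' ht'' => h.2 y b hy b' hb t'' (ht''.trans ht)⟩
  refine ⟨D, hD1, ?_, ?_, fun t z h => h.1.self⟩
  · intro t m
    induction m with
    | zero =>
      refine ⟨t, le_rfl, [], rfl, good_nil hR t, ?_⟩
      intro y b hy
      have := hy.length_le
      simp at this
    | succ m ih =>
      obtain ⟨t1, ht1, z, hz, hD⟩ := ih
      obtain ⟨t2, ht2, b2, hb2⟩ := hD.1.step hm hp
      let P : ℕ → Prop := fun i => ∃ b : B, (e b : ℕ) = i ∧ ∃ t' ≤ t1, Good R t' (z ++ [b])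
      have hP : ∃ i, P i := ⟨_, b2, rfl, t2, ht2, hb2⟩
      obtain ⟨b, hb, t3, ht3, h3⟩ := Nat.find_spec hP
      refine ⟨t3, ht3.trans ht1, z ++ [b], by simp [hz], h3, ?_⟩
      intro y c hy b' hb' t' ht' hg
      rw [List.prefix_concat_iff] at hy
      rcases hy with hy | hy
      · obtain ⟨rfl, hc⟩ := List.append_inj' hy rfl
        have hc' : c = b := by simpa using hc
        subst hc'
        have h4 : P (e b') := ⟨b', rfl, t', ht'.trans ht3, hg⟩
        have h5 := Nat.find_min' hP h4
        have h6 : (e b' : ℕ) < e c := hb'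
        omega
      · exact (hD1 _ _ _ ht3 hD).2 y c hy b' hb' t' ht' hg
  · intro t z
    induction z using List.reverseRecOn with
    | nil => intro z' _ _ _; exact List.nil_prefix
    | append_singleton y b ih =>
      intro z' hz hz' hlen
      have hy : D t y := by
        refine ⟨hz.1.of_isPrefix hp (List.prefix_append _ _), ?_⟩
        intro x c hx
        exact hz.2 x c (hx.trans (List.prefix_append _ _))
      rw [List.length_append, List.length_singleton] at hlen
      obtain ⟨w, rfl⟩ := ih z' hy hz' (by omega)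
      cases w with
      | nil => simp at hlen
      | cons c w =>
        have hpre : (y ++ [c]) <+: (y ++ c :: w) := ⟨w, by simp⟩
        have hc : Good R t (y ++ [c]) := hz'.1.of_isPrefix hp hpre
        have hbc : b = c := by
          rcases lt_trichotomy (e b) (e c) with h | h | h
          · exact absurd hz.1 (hz'.2 y c hpre b h t le_rfl)
          · exact e.injective h
          · exact absurd hc (hz.2 y b List.prefix_rfl c h t le_rfl)
        rw [hbc]
        exact hpre

end Pool.Agent.Helper60.MA
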