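import Pool.Agent.Helper67.MA.CC

/-!
# Countable predense subfamilies and names
-/

set_option linter.unusedSectionVars false
set_option linter.unusedVariables false

open Cardinal

namespace Pool.Agent.Helper60.MA

variable {Ω L : Type} [LinearOrder Ω] [LinearOrder L]

/-- block SEQ: countable predense subfamilies and names -/
theorem Sys.exists_seq [WellFoundedLT Ω] {S : Sys Ω L} {C : Cd Ω → Prop}
    (hC : ∀ p, C p → S.Cond p)
    (hC' : ∀ p q r, C p → C q → S.Cond r → S.Le r p → S.Le r q → ∃ r', C r' ∧ S.Le r' p ∧ S.Le r' q)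
    (h0 : C 0) (E : Set (Cd Ω × Bool)) (hE : ∀ t ∈ E, C t.1)
    (hd : ∀ p, C p → ∃ t ∈ E, ∃ r, C r ∧ S.Le r p ∧ S.Le r t.1) :
    ∃ f : ℕ → Cd Ω × Bool, (∀ n, f n ∈ E) ∧
      ∀ p, C p → ∃ n r, C r ∧ S.Le r p ∧ S.Le r (f n).1 := by
  classical
  -- antichains
  let A : Set (Set (Cd Ω)) := {W | (∀ w ∈ W, C w ∧ ∃ t ∈ E, S.Le w t.1) ∧
    ∀ p ∈ W, ∀ q ∈ W, p ≠ q → ¬ ∃ r, C r ∧ S.Le r p ∧ S.Le r q}
  obtain ⟨W, hW⟩ : ∃ W, Maximal (· ∈ A) W := by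
    refine zorn_subset A fun c hcA hc => ?_
    refine ⟨⋃₀ c, ⟨fun w hw => ?_, fun p hp q hq hpq => ?_⟩, fun s hs => Set.subset_sUnion_of_mem hs⟩
    · obtain ⟨s, hs, hws⟩ := hw
      exact (hcA hs).1 w hws
    · obtain ⟨s, hs, hps⟩ := hp
      obtain ⟨s', hs', hqs'⟩ := hq
      rcases hc.total hs hs' with h | h
      · exact (hcA hs').2 p (h hps) q hqs' hpq
      · exact (hcA hs).2 p hps q (h hqs') hpq
  have hcount : W.Countable := by
    refine Sys.ccc (S := S) (fun p hp => hC p (hW.prop.1 p hp).1) fun p hp q hq hpq hr => ?_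
    obtain ⟨r, hr, hrp, hrq⟩ := hr
    exact hW.prop.2 p hp q hq hpq (hC' p q r (hW.prop.1 p hp).1 (hW.prop.1 q hq).1 hr hrp hrq)
  -- predensity
  have hpre : ∀ p, C p → ∃ w ∈ W, ∃ r, C r ∧ S.Le r p ∧ S.Le r w := by
    intro p hp
    obtain ⟨t, ht, r, hr, hrp, hrt⟩ := hd p hp
    by_cases hrW : r ∈ W
    · exact ⟨r, hrW, r, hr, hrp, Sys.Le.refl r⟩
    · by_contra hcon
      push Not at hcon
      have hins : insert r W ∈ A := by
        refine ⟨fun w hw => ?_, fun p' hp' q' hq' hne hcomp => ?_⟩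
        · rcases hw with rfl | hw
          · exact ⟨hr, t, ht, hrt⟩
          · exact hW.prop.1 w hw
        · obtain ⟨x, hx, hx1, hx2⟩ := hcomp
          rcases hp' with rfl | hp' <;> rcases hq' with rfl | hq'
          · exact hne rfl
          · exact hcon q' hq' x hx (hx1.trans hrp) hx2
          · exact hcon p' hp' x hx (hx2.trans hrp) hx1
          · exact hW.prop.2 p' hp' q' hq' hne ⟨x, hx, hx1, hx2⟩
      exact hrW (hW.le_of_ge hins (Set.subset_insert _ _) (Set.mem_insert _ _))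
  obtain ⟨w0, hw0, -⟩ := hpre 0 h0
  obtain ⟨g, hg⟩ := hcount.exists_eq_range ⟨w0, hw0⟩
  have hgW : ∀ n, g n ∈ W := fun n => by rw [hg]; exact ⟨n, rfl⟩
  have hex : ∀ n, ∃ t ∈ E, S.Le (g n) t.1 := fun n => (hW.prop.1 _ (hgW n)).2
  choose f hf hf' using hex
  refine ⟨f, hf, fun p hp => ?_⟩
  obtain ⟨w, hw, r, hr, hrp, hrw⟩ := hpre p hp
  rw [hg] at hw
  obtain ⟨n, rfl⟩ := hw
  exact ⟨n, r, hr, hrp, hrw.trans (hf' n)⟩

theorem Sys.exists_name [WellFoundedLT Ω] {S : Sys Ω L} {C : Cd Ω → Prop}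
    (hC : ∀ p, C p → S.Cond p)
    (hC' : ∀ p q r, C p → C q → S.Cond r → S.Le r p → S.Le r q → ∃ r', C r' ∧ S.Le r' p ∧ S.Le r' q)
    (h0 : C 0) (E : ℕ → Cd Ω → Bool → Prop) (hE : ∀ k t i, E k t i → C t)
    (hd : ∀ k p, C p → ∃ t i r, E k t i ∧ C r ∧ S.Le r p ∧ S.Le r t)
    (hc : ∀ k t t' i i' r, E k t i → E k t' i' → C r → S.Le r t → S.Le r t' → i = i') :
    ∃ ν, S.IsName C ν ∧ ∀ k n, E k (S.dec ν k n).1 (S.dec ν k n).2 := by
  have h1 : ∀ k, ∃ f : ℕ → Cd Ω × Bool, (∀ n, f n ∈ {t : Cd Ω × Bool | E k t.1 t.2}) ∧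
      ∀ p, C p → ∃ n r, C r ∧ S.Le r p ∧ S.Le r (f n).1 := by
    intro k
    refine Sys.exists_seq hC hC' h0 {t : Cd Ω × Bool | E k t.1 t.2} (fun t ht => hE k _ _ ht) ?_
    intro p hp
    obtain ⟨t, i, r, h2, h3, h4, h5⟩ := hd k p hp
    exact ⟨(t, i), h2, r, h3, h4, h5⟩
  choose f hf hf' using h1
  obtain ⟨ν, hν⟩ := S.surj f
  have h2 : ∀ k n, E k (S.dec ν k n).1 (S.dec ν k n).2 := by
    intro k n
    rw [hν]
    exact hf k n
  refine ⟨ν, ⟨fun k n => hE k _ _ (h2 k n), ?_, ?_⟩, h2⟩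
  · intro k p hp
    rw [hν]
    exact hf' k p hp
  · intro k m n r hr hr1 hr2
    exact hc k _ _ _ _ r (h2 k m) (h2 k n) hr hr1 hr2

end Pool.Agent.Helper60.MA
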