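import Pool.Agent.Helper60.MA.Hull
import Pool.Agent.Helper96.Fc.Root

/-!
# The countable chain condition of the iteration
-/

set_option linter.unusedSectionVars false
set_option linter.unusedVariables false

open Cardinal

namespace Pool.Agent.Helper60.MA

variable {Ω L : Type} [LinearOrder Ω] [LinearOrder L]

/-- the union of two conditions with compatible stems -/
noncomputable def join (p p' : Cd Ω) : Cd Ω := by
  classical
  exact Finsupp.ofSupportFinite
    (fun e => if p e = 0 then p' e else if p' e = 0 then p e else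
      ⟨(p e).stem, (p e).side ∪ (p' e).side⟩)
    (((p.support ∪ p'.support).finite_toSet).subset (by
      intro d hd
      simp only [Function.mem_support, ne_eq] at hd
      simp only [Finset.coe_union, Set.mem_union, Finset.mem_coe, Finsupp.mem_support_iff]
      by_contra hcon
      push Not at hcon
      apply hd
      rw [if_pos hcon.1, hcon.2]))

theorem join_left {p p' : Cd Ω} {e : Ω} (h : p e = 0) : join p p' e = p' e := by
  classical
  change (if p e = 0 then p' e else if p' e = 0 then p e else
      (⟨(p e).stem, (p e).side ∪ (p' e).side⟩ : Ent Ω)) = _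
  rw [if_pos h]

theorem join_right {p p' : Cd Ω} {e : Ω} (h : p' e = 0) : join p p' e = p e := by
  classical
  change (if p e = 0 then p' e else if p' e = 0 then p e else
      (⟨(p e).stem, (p e).side ∪ (p' e).side⟩ : Ent Ω)) = _
  split_ifs with h1
  · rw [h, h1]
  · rfl

theorem join_stem {p p' : Cd Ω} {e : Ω} (h : p e ≠ 0) (h' : p' e ≠ 0) :
    (join p p' e).stem = (p e).stem := by
  classical
  change (if p e = 0 then p' e else if p' e = 0 then p e else
      (⟨(p e).stem, (p e).side ∪ (p' e).side⟩ : Ent Ω)).stem = _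
  rw [if_neg h, if_neg h']

theorem join_side {p p' : Cd Ω} {e : Ω} {ν : Ω} (h : p e ≠ 0) (h' : p' e ≠ 0) :
    ν ∈ (join p p' e).side ↔ ν ∈ (p e).side ∨ ν ∈ (p' e).side := by
  classical
  change ν ∈ (if p e = 0 then p' e else if p' e = 0 then p e else
      (⟨(p e).stem, (p e).side ∪ (p' e).side⟩ : Ent Ω)).side ↔ _
  rw [if_neg h, if_neg h']
  exact Finset.mem_union

namespace Sys

variable {S : Sys Ω L}

/-- two conditions with the same stems on the common support are compatible -/
theorem compat [WellFoundedLT Ω] {p p' : Cd Ω} (hp : S.Cond p) (hp' : S.Cond p')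
    (hst : ∀ e, p e ≠ 0 → p' e ≠ 0 → (p e).stem = (p' e).stem) :
    ∃ r, S.Cond r ∧ S.Le r p ∧ S.Le r p' := by
  have h1 : ∀ t ∈ ({p, p', 0} : Set (Cd Ω)), S.Le (join p p') t := by
    refine le_of_step fun e h t ht => ?_
    have hlp : S.LeB e (join p p') p := h p (by simp)
    have hlp' : S.LeB e (join p p') p' := h p' (by simp)
    by_cases h0 : p e = 0
    · rw [join_left h0]
      have h2 : S.Loc e (join p p') (S.LeB e (join p p')) (p' e) 0 :=
        (hp'.1 e).mono (fun c hc => hlp'.trans hc) hlp'.word
      rcases ht with rfl | rfl | rfl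
      · rw [h0]
        exact h2
      · exact Loc.refl _ _ _ _
      · exact h2
    · by_cases h0' : p' e = 0
      · rw [join_right h0']
        have h2 : S.Loc e (join p p') (S.LeB e (join p p')) (p e) 0 :=
          (hp.1 e).mono (fun c hc => hlp.trans hc) hlp.word
        rcases ht with rfl | rfl | rfl
        · exact Loc.refl _ _ _ _
        · rw [h0']
          exact h2
        · exact h2
      · have h2 : S.Loc e (join p p') (S.LeB e (join p p')) (join p p' e) (p e) :=
          Loc.of_side (join_stem h0 h0') (fun ν hν => (join_side h0 h0').2 (Or.inl hν))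
        rcases ht with rfl | rfl | rfl
        · exact h2
        · exact Loc.of_side ((join_stem h0 h0').trans (hst e h0 h0'))
            (fun ν hν => (join_side h0 h0').2 (Or.inr hν))
        · exact Loc.trans (fun c hc => hlp.trans hc) hlp.word h2 (hp.1 e)
  refine ⟨join p p', ⟨h1 0 (by simp), fun e he => ?_⟩, h1 p (by simp), h1 p' (by simp)⟩
  by_cases h0 : p e = 0
  · rw [join_left h0] at he ⊢
    exact hp'.2 e he
  · by_cases h0' : p' e = 0
    · rw [join_right h0']
      exact hp.2 e h0
    · have a1 := hp.2 e h0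
      have a2 := hp'.2 e h0'
      refine ⟨fun hc => ⟨(a1.1 hc).1, fun ν hν => ?_⟩, fun hc γ hγ => ?_⟩
      · rcases (join_side h0 h0').1 hν with hν | hν
        · exact (a1.1 hc).2 ν hν
        · exact (a2.1 hc).2 ν hν
      · rcases (join_side h0 h0').1 hγ with hγ | hγ
        · exact a1.2 hc γ hγ
        · exact a2.2 hc γ hγ

end Sys

theorem cls_aleph : Helper96.Fc.Cls ℵ₀ (Cardinal.aleph 1) where
  rτ := isRegular_aleph0
  rθ := isRegular_aleph_one
  lt := aleph0_lt_aleph_one
  pow := by
    intro a ha b hb
    have ha' : a ≤ ℵ₀ := by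
      rw [← Order.lt_succ_iff, succ_aleph0]
      exact ha
    obtain ⟨n, rfl⟩ := lt_aleph0.1 hb
    refine lt_of_le_of_lt ?_ aleph0_lt_aleph_one
    refine (power_le_power_right ha').trans ?_
    rw [power_natCast]
    exact power_nat_le le_rfl

/-- block CC: the countable chain condition -/
theorem Sys.ccc [WellFoundedLT Ω] {S : Sys Ω L} {F : Set (Cd Ω)} (hF : ∀ p ∈ F, S.Cond p)
    (hanti : ∀ p ∈ F, ∀ q ∈ F, p ≠ q → ¬ ∃ r, S.Cond r ∧ S.Le r p ∧ S.Le r q) :
    F.Countable := by
  by_contra hcon
  have h1 : Cardinal.aleph 1 ≤ #F := by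
    rw [← not_lt]
    intro h
    apply hcon
    rw [← Cardinal.le_aleph0_iff_set_countable, ← Order.lt_succ_iff, succ_aleph0]
    exact h
  have h2 : #(Cardinal.aleph 1).ord.ToType ≤ #F := by rwa [mk_ord_toType]
  obtain ⟨g⟩ := h2
  let P : (Cardinal.aleph 1).ord.ToType → Cd Ω := fun ξ => (g ξ).1
  have hP : Function.Injective P := fun a b h => g.injective (Subtype.ext h)
  let s : (Cardinal.aleph 1).ord.ToType → Set Ω := fun ξ => ((P ξ).support : Set Ω)
  have hs : ∀ ξ, #(s ξ) < ℵ₀ := fun ξ => Cardinal.lt_aleph0_iff_set_finite.2 (Finset.finite_toSet _)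
  obtain ⟨R, c, e, hR, he, h3, h4⟩ := cls_aleph.thin s hs (fun _ => ())
    (by rw [mk_unit]; exact one_lt_aleph0.trans aleph0_lt_aleph_one) s
    (fun ξ => (hs ξ).trans aleph0_lt_aleph_one)
  have hRf : R.Finite := Cardinal.lt_aleph0_iff_set_finite.1 hR
  have : Finite R := hRf
  let st : (Cardinal.aleph 1).ord.ToType → (R → List (List Sym)) := fun k x => (P (e k) x.1).stem
  have hunc : Uncountable (Cardinal.aleph 1).ord.ToType := by
    rw [← Cardinal.aleph0_lt_mk_iff, mk_ord_toType]
    exact aleph0_lt_aleph_one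
  have hni : ¬ Function.Injective st := not_injective_uncountable_countable st
  rw [Function.Injective] at hni
  push Not at hni
  obtain ⟨j, k, hjk, hne⟩ := hni
  have key : ∀ j k, j < k → st j = st k → False := by
    intro j k hlt hjk
    refine hanti (P (e j)) (g (e j)).2 (P (e k)) (g (e k)).2
      (fun h => hlt.ne (he.injective (hP h))) ?_
    refine Sys.compat (hF _ (g (e j)).2) (hF _ (g (e k)).2) fun x hx hx' => ?_
    have hxR : x ∈ R := h4 j k hlt ⟨Finset.mem_coe.2 (Finsupp.mem_support_iff.2 hx'),
      Finset.mem_coe.2 (Finsupp.mem_support_iff.2 hx)⟩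
    exact congrFun hjk ⟨x, hxR⟩
  rcases lt_trichotomy j k with h | h | h
  · exact key j k h hjk
  · exact hne h
  · exact key k j h hjk.symm

end Pool.Agent.Helper60.MA
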